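import Pool.Agent.helper69.DH.SpecR2

set_option autoImplicit false

open Filter Topology MeasureTheory
open scoped commutatorElement

namespace Pool.Agent.helper90.DH

open Pool.Agent.helper64.D2

theorem rNIM_deriv_out (f : ℝ → ℝ) (hout : ∀ x : ℝ, x ∉ Set.Ioo (0 : ℝ) 1 → f x = x) (x : ℝ) (hx : x < 0 ∨ 1 < x) :
    deriv f x = 1 := by
  have h : f =ᶠ[𝓝 x] id := by
    rcases hx with hx | hx
    · filter_upwards [Iio_mem_nhds hx] with y hy
      exact hout y (fun h => absurd h.1 (not_lt.2 (le_of_lt hy)))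
    · filter_upwards [Ioi_mem_nhds hx] with y hy
      exact hout y (fun h => absurd h.2 (not_lt.2 (le_of_lt hy)))
  rw [h.deriv_eq]
  exact deriv_id x

theorem rNIM_deriv_zero (f : ℝ → ℝ) (hf : ContDiff ℝ 2 f) (hout : ∀ x : ℝ, x ∉ Set.Ioo (0 : ℝ) 1 → f x = x) :
    deriv f 0 = 1 := by
  have hd : DifferentiableAt ℝ f 0 := (hf.differentiable (by norm_num)).differentiableAt
  have h1 : HasDerivWithinAt f (deriv f 0) (Set.Iic 0) 0 := hd.hasDerivAt.hasDerivWithinAt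
  have h2 : HasDerivWithinAt f 1 (Set.Iic 0) 0 := by
    have h3 : HasDerivWithinAt (fun y : ℝ => y) 1 (Set.Iic 0) 0 := (hasDerivAt_id' (0 : ℝ)).hasDerivWithinAt
    refine h3.congr (fun y hy => ?_) ?_
    · exact hout y (fun h => absurd h.1 (not_lt.2 hy))
    · exact hout 0 (fun h => lt_irrefl _ h.1)
  have hu : UniqueDiffWithinAt ℝ (Set.Iic (0 : ℝ)) 0 := uniqueDiffOn_Iic (0 : ℝ) 0 (Set.mem_Iic.2 le_rfl)
  exact hu.eq_deriv (Set.Iic (0 : ℝ)) h1 h2

theorem rNIM_deriv_bd (f : ℝ → ℝ) (hf : ContDiff ℝ 2 f) (hout : ∀ x : ℝ, x ∉ Set.Ioo (0 : ℝ) 1 → f x = x)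
    (a : ℝ) (ha : 0 ≤ a) (hb : ∀ x : ℝ, |deriv (deriv f) x| ≤ a) (x : ℝ) : |deriv f x - 1| ≤ a := by
  by_cases hx : x < 0 ∨ 1 < x
  · rw [rNIM_deriv_out f hout x hx]; simpa using ha
  · have hx0 : 0 ≤ x := le_of_not_gt (fun h => hx (Or.inl h))
    have hx1 : x ≤ 1 := le_of_not_gt (fun h => hx (Or.inr h))
    have hd1 : ContDiff ℝ 1 (deriv f) := by
      have h : ContDiff ℝ (1 + 1) f := by
        have : ((1 : WithTop ℕ∞) + 1) = 2 := by norm_num
        rw [this]; exact hf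
      exact (contDiff_succ_iff_deriv.1 h).2.2
    have hmv := Convex.norm_image_sub_le_of_norm_deriv_le (𝕜 := ℝ) (f := deriv f) (s := Set.univ) (x := 0) (y := x) (C := a)
      (fun y _ => (hd1.differentiable (by norm_num)).differentiableAt) (fun y _ => by simpa [Real.norm_eq_abs] using hb y)
      convex_univ (Set.mem_univ _) (Set.mem_univ _)
    rw [rNIM_deriv_zero f hf hout, Real.norm_eq_abs, Real.norm_eq_abs, sub_zero, abs_of_nonneg hx0] at hmv
    calc |deriv f x - 1| ≤ a * x := hmv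
      _ ≤ a * 1 := mul_le_mul_of_nonneg_left hx1 ha
      _ = a := mul_one a

theorem rNIM_lip (f : ℝ → ℝ) (hf : ContDiff ℝ 2 f) (hout : ∀ x : ℝ, x ∉ Set.Ioo (0 : ℝ) 1 → f x = x)
    (a : ℝ) (ha : 0 ≤ a) (hb : ∀ x : ℝ, |deriv (deriv f) x| ≤ a) (x y : ℝ) : |f x - f y - (x - y)| ≤ a * |x - y| := by
  have hdf : Differentiable ℝ f := hf.differentiable (by norm_num)
  have hg : ∀ z : ℝ, HasDerivAt (fun t : ℝ => f t - t) (deriv f z - 1) z := fun z =>
    (hdf z).hasDerivAt.sub (hasDerivAt_id' z)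
  have hmv := Convex.norm_image_sub_le_of_norm_deriv_le (𝕜 := ℝ) (f := fun t : ℝ => f t - t) (s := Set.univ) (x := y) (y := x) (C := a)
      (fun z _ => (hg z).differentiableAt) (fun z _ => by rw [(hg z).deriv, Real.norm_eq_abs]; exact rNIM_deriv_bd f hf hout a ha hb z)
      convex_univ (Set.mem_univ _) (Set.mem_univ _)
  rw [Real.norm_eq_abs, Real.norm_eq_abs] at hmv
  calc |f x - f y - (x - y)| = |f x - x - (f y - y)| := by congr 1; ring
    _ ≤ a * |x - y| := hmv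

theorem rNIM : rNIM_stmt := by
  intro c hc
  have key : ∀ x y : ℝ, |ev c x - ev c y - (x - y)| ≤ |x - y| / 2 ^ 28 := by
    intro x y
    have h := rNIM_lip (ev c) (ev_contDiff c) (ev_out c) (1 / 2 ^ 29) (by positivity) hc x y
    have h2 : (1 / 2 ^ 29 : ℝ) * |x - y| ≤ |x - y| / 2 ^ 28 := by
      have := abs_nonneg (x - y)
      rw [div_eq_mul_inv |x - y|, mul_comm]
      refine mul_le_mul_of_nonneg_left ?_ this
      norm_num
    exact h.trans h2
  have key2 : ∀ u v : ℝ, |u - v| ≤ 2 * |ev c u - ev c v| := by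
    intro u v
    have h := key u v
    have h1 : |u - v| ≤ |ev c u - ev c v| + |ev c u - ev c v - (u - v)| := by
      calc |u - v| = |(ev c u - ev c v) - (ev c u - ev c v - (u - v))| := by congr 1; ring
        _ ≤ |ev c u - ev c v| + |ev c u - ev c v - (u - v)| := abs_sub _ _
    have h3 : |u - v| / 2 ^ 28 ≤ |u - v| / 2 := by
      have := abs_nonneg (u - v)
      apply div_le_div_of_nonneg_left this (by norm_num) (by norm_num)
    linarith
  refine ⟨fun x y => ⟨key x y, ?_⟩, ?_, ?_⟩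
  · have h := key (ev c⁻¹ x) (ev c⁻¹ y)
    have h2 := key2 (ev c⁻¹ x) (ev c⁻¹ y)
    rw [ev_inv' c x, ev_inv' c y] at h h2
    calc |ev c⁻¹ x - ev c⁻¹ y - (x - y)| = |x - y - (ev c⁻¹ x - ev c⁻¹ y)| := by
          rw [← abs_neg]; congr 1; ring
      _ ≤ |ev c⁻¹ x - ev c⁻¹ y| / 2 ^ 28 := h
      _ ≤ (2 * |x - y|) / 2 ^ 28 := by gcongr
      _ = |x - y| / 2 ^ 27 := by ring
  · intro d hd x
    have h := hd (ev c⁻¹ x)
    rw [ev_inv' c x] at h
    rw [abs_sub_comm]; exact h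
  · intro c' e he x
    have h2 := key2 (ev c⁻¹ x) (ev c'⁻¹ x)
    have h3 : ev c (ev c⁻¹ x) = ev c' (ev c'⁻¹ x) := by rw [ev_inv' c x, ev_inv' c' x]
    have h4 := he (ev c'⁻¹ x)
    rw [h3, abs_sub_comm (ev c' (ev c'⁻¹ x)) _] at h2
    linarith

end Pool.Agent.helper90.DH
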